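import Mathlib

set_option autoImplicit false

namespace Pool.Agent.Results.MP_a3f2aa_co.Full

/-- `D` is a dominating set of `G`. -/
def Dom {V : Type} (G : SimpleGraph V) (D : Set V) : Prop :=
  ∀ v : V, v ∉ D → ∃ u ∈ D, G.Adj v u

/-- `D` is an indivisible dominating set. -/
def Indiv {V : Type} (G : SimpleGraph V) (D : Set V) : Prop :=
  Dom G D ∧ ¬ ∃ A B : Set V, D = A ∪ B ∧ Disjoint A B ∧ A.Nonempty ∧ B.Nonempty ∧
    Dom G A ∧ Dom G B

/-- `V` has a partition into exactly `k` (nonempty, pairwise disjoint) classes, each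
satisfying `p`. -/
def HasPart (V : Type) (p : Set V → Prop) (k : ℕ) : Prop :=
  ∃ C : Fin k → Set V, (∀ i, (C i).Nonempty) ∧ (∀ i j, i ≠ j → Disjoint (C i) (C j)) ∧
    (⋃ i, C i) = Set.univ ∧ ∀ i, p (C i)

def Thin {V : Type} (G : SimpleGraph V) (S : Set V) : Prop :=
  ¬ ∃ A B : Set V, A ⊆ S ∧ B ⊆ S ∧ Disjoint A B ∧ Dom G A ∧ Dom G B

theorem dom_mono {V : Type} {G : SimpleGraph V} {A B : Set V} (h : A ⊆ B) (hA : Dom G A) :
    Dom G B := by
  intro v hv
  obtain ⟨u, hu, hadj⟩ := hA v (fun h2 => hv (h h2))
  exact ⟨u, h hu, hadj⟩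

theorem dom_nonempty {V : Type} [Nonempty V] {G : SimpleGraph V} {A : Set V} (hA : Dom G A) :
    A.Nonempty := by
  obtain ⟨v⟩ := ‹Nonempty V›
  by_cases hv : v ∈ A
  · exact ⟨v, hv⟩
  · obtain ⟨u, hu, -⟩ := hA v hv
    exact ⟨u, hu⟩

theorem thin_mono {V : Type} {G : SimpleGraph V} {S T : Set V} (h : S ⊆ T) (hT : Thin G T) :
    Thin G S := by
  rintro ⟨A, B, hA, hB, hd, h1, h2⟩
  exact hT ⟨A, B, hA.trans h, hB.trans h, hd, h1, h2⟩

theorem thin_of_indiv {V : Type} [Nonempty V] {G : SimpleGraph V} {S : Set V}
    (h : Indiv G S) : Thin G S := by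
  rintro ⟨A, B, hA, hB, hd, h1, h2⟩
  have hBs : B ⊆ S \ A := fun x hx => ⟨hB hx, fun hxa => Set.disjoint_left.1 hd hxa hx⟩
  have h3 : Dom G (S \ A) := dom_mono hBs h2
  exact h.2 ⟨A, S \ A, (Set.union_diff_cancel hA).symm, Set.disjoint_sdiff_right,
    dom_nonempty h1, dom_nonempty h3, h1, h3⟩

theorem thin_insert {V : Type} {G : SimpleGraph V} {L : Set V} (v : V) (h : ¬ Dom G L) :
    Thin G (insert v L) := by
  rintro ⟨A, B, hA, hB, hd, h1, h2⟩
  by_cases hv : v ∈ A
  · refine h (dom_mono (fun x hx => ?_) h2)
    rcases hB hx with h3 | h3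
    · exact absurd hx (Set.disjoint_left.1 hd (h3 ▸ hv))
    · exact h3
  · refine h (dom_mono (fun x hx => ?_) h1)
    rcases hA hx with h3 | h3
    · exact absurd (h3 ▸ hx) hv
    · exact h3

theorem main {V : Type} [Fintype V] [Nonempty V] (G : SimpleGraph V) (a d k : ℕ)
    (ha : HasPart V (Indiv G) a) (hd : HasPart V (Dom G) d) (hak : a ≤ k) (hkd : k ≤ d) :
    HasPart V (Indiv G) k := by
  classical
  obtain ⟨C, -, -, hCu, hCi⟩ := ha
  obtain ⟨Q, -, hQd, -, hQ⟩ := hd
  have hcov : ∀ v : V, ∃ i, v ∈ C i := fun v => by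
    have : v ∈ ⋃ i, C i := by rw [hCu]; exact Set.mem_univ v
    exact Set.mem_iUnion.1 this
  choose f hf using hcov
  let good : Finset (V → Fin k) := Finset.univ.filter (fun c => ∀ j, Thin G {v | c v = j})
  have hne : good.Nonempty := by
    refine ⟨fun v => Fin.castLE hak (f v), Finset.mem_filter.2 ⟨Finset.mem_univ _, fun j => ?_⟩⟩
    by_cases hj : ∃ w, Fin.castLE hak (f w) = j
    · obtain ⟨w, hw⟩ := hj
      refine thin_mono (fun x hx => ?_) (thin_of_indiv (hCi (f w)))
      have h1 : Fin.castLE hak (f x) = Fin.castLE hak (f w) := hx.trans hw.symm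
      have h2 : f x = f w := Fin.castLE_injective hak h1
      exact h2 ▸ hf x
    · rintro ⟨A, B, hA, -, -, h1, -⟩
      obtain ⟨x, hx⟩ := dom_nonempty h1
      exact hj ⟨x, hA hx⟩
  obtain ⟨c, hc, hmax⟩ := Finset.exists_max_image good
    (fun c => (Finset.univ.filter (fun v => v ∈ Q (Fin.castLE hkd (c v)))).card) hne
  have hthin : ∀ j, Thin G {v | c v = j} := (Finset.mem_filter.1 hc).2
  have hdom : ∀ j, Dom G {v | c v = j} := by
    intro j
    by_contra hn
    have hex : ∃ v ∈ Q (Fin.castLE hkd j), c v ≠ j := by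
      by_contra h2
      refine hn (dom_mono (fun x hx => ?_) (hQ (Fin.castLE hkd j)))
      by_contra h3
      exact h2 ⟨x, hx, h3⟩
    obtain ⟨v, hvQ, hvc⟩ := hex
    have hvold : v ∉ Q (Fin.castLE hkd (c v)) := fun h2 =>
      Set.disjoint_left.1 (hQd _ _ (fun h3 => hvc (Fin.castLE_injective hkd h3))) h2 hvQ
    have hc' : Function.update c v j ∈ good := by
      refine Finset.mem_filter.2 ⟨Finset.mem_univ _, fun i => ?_⟩
      by_cases hi : i = j
      · subst hi
        refine thin_mono (fun x hx => ?_) (thin_insert v hn)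
        by_cases hxv : x = v
        · exact Or.inl hxv
        · right
          have h4 : Function.update c v i x = i := hx
          rwa [Function.update_of_ne hxv] at h4
      · refine thin_mono (fun x hx => ?_) (hthin i)
        have h4 : Function.update c v j x = i := hx
        by_cases hxv : x = v
        · subst hxv
          rw [Function.update_self] at h4
          exact absurd h4.symm hi
        · rwa [Function.update_of_ne hxv] at h4
    have hle := hmax _ hc'
    have hlt : (Finset.univ.filter (fun x => x ∈ Q (Fin.castLE hkd (c x)))).card <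
        (Finset.univ.filter
          (fun x => x ∈ Q (Fin.castLE hkd (Function.update c v j x)))).card := by
      apply Finset.card_lt_card
      refine ⟨fun x hx => ?_, fun h2 => ?_⟩
      · have h3 := (Finset.mem_filter.1 hx).2
        refine Finset.mem_filter.2 ⟨Finset.mem_univ _, ?_⟩
        by_cases hxv : x = v
        · subst hxv
          exact absurd h3 hvold
        · rwa [Function.update_of_ne hxv]
      · have h3 : v ∈ Finset.univ.filter
            (fun x => x ∈ Q (Fin.castLE hkd (Function.update c v j x))) := by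
          refine Finset.mem_filter.2 ⟨Finset.mem_univ _, ?_⟩
          rw [Function.update_self]
          exact hvQ
        exact hvold (Finset.mem_filter.1 (h2 h3)).2
    exact absurd hle (not_le.2 hlt)
  refine ⟨fun j => {v | c v = j}, fun j => dom_nonempty (hdom j), ?_, ?_, fun j => ⟨hdom j, ?_⟩⟩
  · intro i j hij
    exact Set.disjoint_left.2 (fun x h1 h2 => hij ((show c x = i from h1).symm.trans h2))
  · ext x
    simp
  · rintro ⟨A, B, hAB, hdj, -, -, h1, h2⟩
    refine hthin j ⟨A, B, ?_, ?_, hdj, h1, h2⟩
    · intro x hx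
      have h5 : x ∈ A ∪ B := Or.inl hx
      rw [← hAB] at h5
      exact h5
    · intro x hx
      have h5 : x ∈ A ∪ B := Or.inr hx
      rw [← hAB] at h5
      exact h5

/-- the domatic number `d(G)`. -/
noncomputable def domatic {V : Type} (G : SimpleGraph V) : ℕ := sSup {m | HasPart V (Dom G) m}

/-- the adomatic number `ad(G)`. -/
noncomputable def adomatic {V : Type} (G : SimpleGraph V) : ℕ := sInf {m | HasPart V (Indiv G) m}

theorem part_le {V : Type} [Fintype V] {p : Set V → Prop} {m : ℕ} (h : HasPart V p m) :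
    m ≤ Fintype.card V := by
  obtain ⟨C, hne, hdj, -, -⟩ := h
  choose g hg using hne
  have hinj : Function.Injective g := by
    intro i j hij
    by_contra h2
    exact Set.disjoint_left.1 (hdj i j h2) (hg i) (hij ▸ hg j)
  simpa using Fintype.card_le_of_injective g hinj

theorem dom_mem {V : Type} [Fintype V] [Nonempty V] (G : SimpleGraph V) :
    HasPart V (Dom G) (domatic G) := by
  have h1 : HasPart V (Dom G) 1 := by
    refine ⟨fun _ => Set.univ, fun _ => Set.univ_nonempty, ?_, ?_, ?_⟩
    · intro i j hij
      exact absurd (Subsingleton.elim i j) hij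
    · exact Set.iUnion_const _
    · intro _ v hv
      exact absurd (Set.mem_univ v) hv
  exact Nat.sSup_mem (s := {m | HasPart V (Dom G) m}) ⟨1, h1⟩
    ⟨Fintype.card V, fun m hm => part_le hm⟩

theorem indiv_dom {V : Type} [Fintype V] [Nonempty V] (G : SimpleGraph V) :
    HasPart V (Indiv G) (domatic G) := by
  classical
  obtain ⟨C, hne, hdj, hu, hd⟩ := dom_mem G
  refine ⟨C, hne, hdj, hu, fun i => ⟨hd i, ?_⟩⟩
  rintro ⟨A, B, hAB, hAd, hA, hB, h1, h2⟩
  have hAs : A ⊆ C i := by rw [hAB]; exact Set.subset_union_left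
  have hBs : B ⊆ C i := by rw [hAB]; exact Set.subset_union_right
  have hup : ∀ j, Function.update C i B j ⊆ C j := by
    intro j
    by_cases hj : j = i
    · subst hj
      rw [Function.update_self]
      exact hBs
    · rw [Function.update_of_ne hj]
  have hAup : ∀ j, Disjoint A (Function.update C i B j) := by
    intro j
    by_cases hj : j = i
    · subst hj
      rw [Function.update_self]
      exact hAd
    · rw [Function.update_of_ne hj]
      exact Set.disjoint_of_subset_left hAs (hdj i j (fun h => hj h.symm))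
  have hbig : HasPart V (Dom G) (domatic G + 1) := by
    refine ⟨Fin.cons A (Function.update C i B), ?_, ?_, ?_, ?_⟩
    · intro j
      refine Fin.cases ?_ (fun j => ?_) j
      · simpa using hA
      · rw [Fin.cons_succ]
        by_cases hj : j = i
        · subst hj
          rw [Function.update_self]
          exact hB
        · rw [Function.update_of_ne hj]
          exact hne j
    · intro j l
      refine Fin.cases ?_ (fun j => ?_) j
      · refine Fin.cases ?_ (fun l => ?_) l
        · intro h
          exact absurd rfl h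
        · intro _
          rw [Fin.cons_zero, Fin.cons_succ]
          exact hAup l
      · refine Fin.cases ?_ (fun l => ?_) l
        · intro _
          rw [Fin.cons_zero, Fin.cons_succ]
          exact (hAup j).symm
        · intro h
          rw [Fin.cons_succ, Fin.cons_succ]
          exact Set.disjoint_of_subset (hup j) (hup l) (hdj j l (fun h2 => h (by rw [h2])))
    · ext x
      simp only [Set.mem_iUnion, Set.mem_univ, iff_true]
      have hx : x ∈ ⋃ j, C j := by rw [hu]; exact Set.mem_univ x
      obtain ⟨j, hj⟩ := Set.mem_iUnion.1 hx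
      by_cases hji : j = i
      · subst hji
        rw [hAB] at hj
        rcases hj with h3 | h3
        · exact ⟨0, by rw [Fin.cons_zero]; exact h3⟩
        · exact ⟨j.succ, by rw [Fin.cons_succ, Function.update_self]; exact h3⟩
      · exact ⟨j.succ, by rw [Fin.cons_succ, Function.update_of_ne hji]; exact hj⟩
    · intro j
      refine Fin.cases ?_ (fun j => ?_) j
      · simpa using h1
      · rw [Fin.cons_succ]
        by_cases hj : j = i
        · subst hj
          rw [Function.update_self]
          exact h2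
        · rw [Function.update_of_ne hj]
          exact hd j
  have hle : domatic G + 1 ≤ domatic G :=
    le_csSup (s := {m | HasPart V (Dom G) m}) ⟨Fintype.card V, fun m hm => part_le hm⟩ hbig
  omega

/-- Interpolation theorem for partitions into indivisible dominating sets. -/
theorem result (V : Type) [Fintype V] [Nonempty V] (G : SimpleGraph V) (k : ℕ)
    (h1 : adomatic G ≤ k) (h2 : k ≤ domatic G) : HasPart V (Indiv G) k := by
  have ha : HasPart V (Indiv G) (adomatic G) :=
    Nat.sInf_mem (s := {m | HasPart V (Indiv G) m}) ⟨domatic G, indiv_dom G⟩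
  exact main G (adomatic G) (domatic G) k ha (dom_mem G) h1 h2

end Pool.Agent.Results.MP_a3f2aa_co.Full
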